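import Mathlib

/-!
Closed unbounded sets of a regular cardinal, subtle sets, and coding.
-/

namespace Pool.Agent.Work.MP_f3e7a9_gt

open Set Cardinal

/-- `C` is a closed unbounded subset of `κ`. -/
def IsClubIn (κ : Cardinal.{0}) (C : Set Ordinal.{0}) : Prop :=
  C ⊆ Iio κ.ord ∧ (∀ β < κ.ord, ∃ γ ∈ C, β ≤ γ) ∧
    ∀ β < κ.ord, Order.IsSuccLimit β → (∀ γ < β, ∃ δ ∈ C, γ ≤ δ ∧ δ < β) → β ∈ C

/-- `S` is a subtle subset of `κ`: for all sets `A α ⊆ α` (`α < κ`) and every closed unbounded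
set `C ⊆ κ` there are `α < β` in `C ∩ S` with `A α = A β ∩ α`. -/
def SubtleOn (κ : Cardinal.{0}) (S : Set Ordinal.{0}) : Prop :=
  ∀ A : Ordinal.{0} → Set Ordinal.{0}, (∀ α < κ.ord, A α ⊆ Iio α) →
    ∀ C : Set Ordinal.{0}, IsClubIn κ C →
      ∃ α ∈ C ∩ S, ∃ β ∈ C ∩ S, α < β ∧ A α = A β ∩ Iio α

/-- limit ordinals below `κ` closed under `g`. -/
def Cl (κ : Cardinal.{0}) (g : Ordinal.{0} → Ordinal.{0}) : Set Ordinal.{0} :=
  {δ | δ < κ.ord ∧ Order.IsSuccLimit δ ∧ ∀ α < δ, g α < δ}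

theorem exists_bound {κ : Cardinal.{0}} (hr : κ.IsRegular) {ι : Type 1}
    (hι : #ι < Cardinal.lift.{1} κ) (F : ι → Ordinal.{0}) (hF : ∀ i, F i < κ.ord) :
    ∃ b < κ.ord, ∀ i, F i < b := by
  have hsm : Small.{0} ι := by
    rw [small_iff_lift_mk_lt_univ]
    calc Cardinal.lift.{1, 1} #ι = #ι := by simp
      _ < Cardinal.lift.{1} κ := hι
      _ < Cardinal.univ.{0, 1} := by
        exact Cardinal.lift_lt_univ κ
  refine ⟨⨆ i, F i + 1, ?_, fun i => Ordinal.lt_iSup_add_one F i⟩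
  apply Ordinal.lift_iSup_add_one_lt_of_lt_cof _ hF
  rw [← Ordinal.lift_cof, hr.cof_ord]
  simpa using hι

theorem card_Iic_lt {κ : Cardinal.{0}} (hr : κ.IsRegular) {a : Ordinal.{0}} (ha : a < κ.ord) :
    #(Iic a) < Cardinal.lift.{1} κ := by
  have h1 : Order.succ a < κ.ord := (isSuccLimit_ord hr.aleph0_le).succ_lt ha
  have h2 : Iic a = Iio (Order.succ a) := by
    ext x; simp
  rw [h2, Cardinal.mk_Iio_ordinal, Cardinal.lift_lt]
  exact lt_ord.1 h1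

theorem nat_lt_of {κ : Cardinal.{0}} (h0 : ℵ₀ < κ) : #(ULift.{1} ℕ) < Cardinal.lift.{1} κ := by
  simpa using h0

/-- closure points of a function `κ → κ` form a club. -/
theorem club_cl {κ : Cardinal.{0}} (h0 : ℵ₀ < κ) (hr : κ.IsRegular)
    (g : Ordinal.{0} → Ordinal.{0}) (hg : ∀ α < κ.ord, g α < κ.ord) : IsClubIn κ (Cl κ g) := by
  refine ⟨fun δ hδ => hδ.1, ?_, ?_⟩
  · intro β hβ
    -- monotone majorant
    have hM : ∀ a : Ordinal.{0}, ∃ b, a < κ.ord → (b < κ.ord ∧ a < b ∧ ∀ x ≤ a, g x < b) := by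
      intro a
      by_cases ha : a < κ.ord
      · obtain ⟨b, hb, hb'⟩ := exists_bound hr (card_Iic_lt hr ha)
          (fun x : Iic a => max (g x) a) (fun x => max_lt (hg _ (lt_of_le_of_lt x.2 ha)) ha)
        refine ⟨b, fun _ => ⟨hb, ?_, ?_⟩⟩
        · exact lt_of_le_of_lt (le_max_right _ _) (hb' ⟨a, mem_Iic.2 le_rfl⟩)
        · intro x hx
          exact lt_of_le_of_lt (le_max_left _ _) (hb' ⟨x, mem_Iic.2 hx⟩)
      · exact ⟨0, fun h => absurd h ha⟩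
    choose M hM using hM
    let s : ℕ → Ordinal.{0} := fun n => Nat.rec β (fun _ x => M x) n
    have hs : ∀ n, s n < κ.ord := by
      intro n
      induction n with
      | zero => exact hβ
      | succ n ih => exact (hM _ ih).1
    have hs1 : ∀ n, s n < s (n + 1) := fun n => (hM _ (hs n)).2.1
    have hs2 : ∀ n, ∀ x ≤ s n, g x < s (n + 1) := fun n => (hM _ (hs n)).2.2
    obtain ⟨b, hb, hb'⟩ := exists_bound hr (nat_lt_of h0) (fun n : ULift.{1} ℕ => s n.down)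
      (fun n => hs _)
    have hbdd : BddAbove (range s) := ⟨b, by rintro _ ⟨n, rfl⟩; exact (hb' ⟨n⟩).le⟩
    have hle : ∀ n, s n ≤ ⨆ n, s n := fun n => le_ciSup hbdd n
    have hlt : ∀ n, s n < ⨆ n, s n := fun n => (hs1 n).trans_le (hle (n + 1))
    have hex : ∀ x < ⨆ n, s n, ∃ n, x < s n := fun x hx => by
      obtain ⟨n, hn⟩ := exists_lt_of_lt_ciSup hx
      exact ⟨n, hn⟩
    refine ⟨⨆ n, s n, ⟨?_, ?_, ?_⟩, (hle 0)⟩
    · exact lt_of_le_of_lt (ciSup_le fun n => (hb' ⟨n⟩).le) hb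
    · refine ⟨?_, ?_⟩
      · intro hmin
        have := hlt 0
        exact absurd (hmin this.le) (not_le.2 this)
      · intro a hcov
        obtain ⟨n, hn⟩ := hex a hcov.lt
        exact hcov.2 hn (hlt n)
    · intro α hα
      obtain ⟨n, hn⟩ := hex α hα
      exact (hs2 n α hn.le).trans (hlt (n + 1))
  · intro β hβ hlim hcof
    refine ⟨hβ, hlim, fun α hα => ?_⟩
    obtain ⟨δ, hδ, h1, h2⟩ := hcof (Order.succ α) (hlim.succ_lt hα)
    exact (hδ.2.2 α (lt_of_lt_of_le (Order.lt_succ α) h1)).trans h2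

/-- every club contains the closure points of some function. -/
theorem exists_cl_subset {κ : Cardinal.{0}} {C : Set Ordinal.{0}}
    (hC : IsClubIn κ C) : ∃ g : Ordinal.{0} → Ordinal.{0}, (∀ α < κ.ord, g α < κ.ord) ∧
      Cl κ g ⊆ C := by
  have h : ∀ α : Ordinal.{0}, ∃ γ, α < κ.ord → (γ ∈ C ∧ α ≤ γ) := by
    intro α
    by_cases hα : α < κ.ord
    · obtain ⟨γ, h1, h2⟩ := hC.2.1 α hα
      exact ⟨γ, fun _ => ⟨h1, h2⟩⟩
    · exact ⟨0, fun h => absurd h hα⟩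
  choose g hg using h
  refine ⟨g, fun α hα => hC.1 (hg α hα).1, ?_⟩
  intro δ hδ
  refine hC.2.2 δ hδ.1 hδ.2.1 fun γ hγ => ⟨g γ, (hg γ (hγ.trans hδ.1)).1, (hg γ (hγ.trans hδ.1)).2,
    hδ.2.2 γ hγ⟩

theorem SubtleOn.fn {κ : Cardinal.{0}} (h0 : ℵ₀ < κ) (hr : κ.IsRegular) {S : Set Ordinal.{0}}
    (hS : SubtleOn κ S) (A : Ordinal.{0} → Set Ordinal.{0}) (hA : ∀ α < κ.ord, A α ⊆ Iio α)
    (g : Ordinal.{0} → Ordinal.{0}) (hg : ∀ α < κ.ord, g α < κ.ord) :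
    ∃ α ∈ Cl κ g ∩ S, ∃ β ∈ Cl κ g ∩ S, α < β ∧ A α = A β ∩ Iio α :=
  hS A hA _ (club_cl h0 hr g hg)

/-- a pairing-type injection on `κ`. -/
theorem exists_pairing {κ : Cardinal.{0}} (h0 : ℵ₀ < κ) :
    ∃ p : Ordinal.{0} → Ordinal.{0} → Fin 3 → Ordinal.{0},
      (∀ a < κ.ord, ∀ b < κ.ord, ∀ i, p a b i < κ.ord) ∧
      ∀ a < κ.ord, ∀ b < κ.ord, ∀ i, ∀ a' < κ.ord, ∀ b' < κ.ord, ∀ i',
        p a b i = p a' b' i' → a = a' ∧ b = b' ∧ i = i' := by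
  have hcard : #(Iio κ.ord × Iio κ.ord × Fin 3) ≤ #(Iio κ.ord) := by
    have hk : #(Iio κ.ord) = Cardinal.lift.{1} κ := by
      rw [Cardinal.mk_Iio_ordinal, card_ord]
    have hk0 : ℵ₀ ≤ Cardinal.lift.{1} κ := by simpa using h0.le
    simp only [mk_prod, hk, Cardinal.lift_id, Cardinal.lift_lift, mk_fin, Cardinal.lift_natCast]
    calc Cardinal.lift.{1} κ * (Cardinal.lift.{1} κ * ((3 : ℕ) : Cardinal))
        ≤ Cardinal.lift.{1} κ * (Cardinal.lift.{1} κ * Cardinal.lift.{1} κ) := by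
          gcongr
          exact (natCast_lt_aleph0 (n := 3)).le.trans hk0
      _ = Cardinal.lift.{1} κ := by rw [mul_eq_self hk0, mul_eq_self hk0]
  obtain ⟨e⟩ := Cardinal.le_def _ _ |>.1 hcard
  classical
  refine ⟨fun a b i => if h : a ∈ Iio κ.ord ∧ b ∈ Iio κ.ord then
    (e (⟨a, h.1⟩, ⟨b, h.2⟩, i) : Ordinal) else 0, ?_, ?_⟩
  · intro a ha b hb i
    have hab : a ∈ Iio κ.ord ∧ b ∈ Iio κ.ord := ⟨ha, hb⟩
    simp only [dif_pos hab]
    exact (e _).2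
  · intro a ha b hb i a' ha' b' hb' i' h
    have hab : a ∈ Iio κ.ord ∧ b ∈ Iio κ.ord := ⟨ha, hb⟩
    have hab' : a' ∈ Iio κ.ord ∧ b' ∈ Iio κ.ord := ⟨ha', hb'⟩
    simp only [dif_pos hab, dif_pos hab'] at h
    have := e.injective (Subtype.ext h)
    simp only [Prod.mk.injEq, Subtype.mk.injEq] at this
    exact this

end Pool.Agent.Work.MP_f3e7a9_gt
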