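import Mathlib

/-!
A normal space built from a ladder system with the uniformization property.
-/

namespace Pool.Agent.Work.MP_f3e7a9_gt

open Set Cardinal Topology

/-- the underlying set -/
inductive Pt (I J : Type) (S : Set I) (η : I → J → I) : Type
  | pt (e : I) : Pt I J S η
  | q (a b c : I) : Pt I J S η

namespace Pt

variable {I J : Type} [LinearOrder I] [LinearOrder J] {S : Set I} {η : I → J → I}

/-- basic neighbourhoods of the point of `D` with index `e`. -/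
def B (S : Set I) (η : I → J → I) (e : I) (n : J) (ξ : I) : Set (Pt I J S η) :=
  {x | x = pt e ∨
    (∃ a e1, x = q a e e1 ∧ e1 ∈ S ∧ e < e1 ∧ ξ < e1 ∧ (∃ m, n ≤ m ∧ η e m = a) ∧
      ∃ m, η e1 m = a) ∨
    ∃ a e0, x = q a e0 e ∧ e0 ∈ S ∧ e0 < e ∧ (∃ m, n ≤ m ∧ η e m = a) ∧
      ∃ m, η e0 m = a}

theorem self_mem (e : I) (n : J) (ξ : I) : (pt e : Pt I J S η) ∈ B S η e n ξ := Or.inl rfl

theorem B_mono {e : I} {n n' : J} {ξ ξ' : I} (hn : n ≤ n') (hξ : ξ ≤ ξ') :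
    B S η e n' ξ' ⊆ B S η e n ξ := by
  rintro x (h | ⟨a, e1, h1, h2, h3, h4, ⟨m, hm, h5⟩, h6⟩ | ⟨a, e0, h1, h2, h3, ⟨m, hm, h5⟩, h6⟩)
  · exact Or.inl h
  · exact Or.inr (Or.inl ⟨a, e1, h1, h2, h3, lt_of_le_of_lt hξ h4, ⟨m, hn.trans hm, h5⟩, h6⟩)
  · exact Or.inr (Or.inr ⟨a, e0, h1, h2, h3, ⟨m, hn.trans hm, h5⟩, h6⟩)

theorem inl_mem {e e' : I} {n : J} {ξ : I} (h : (pt e' : Pt I J S η) ∈ B S η e n ξ) :
    e' = e := by
  rcases h with h | ⟨a, e1, h, -⟩ | ⟨a, e0, h, -⟩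
  · injection h
  · cases h
  · cases h

instance [Nonempty J] : TopologicalSpace (Pt I J S η) where
  IsOpen V := ∀ e ∈ S, (pt e : Pt I J S η) ∈ V → ∃ n ξ, B S η e n ξ ⊆ V
  isOpen_univ := fun e _ _ => ⟨Classical.arbitrary J, e, subset_univ _⟩
  isOpen_inter := by
    rintro V W hV hW e he ⟨h1, h2⟩
    obtain ⟨n, ξ, h3⟩ := hV e he h1
    obtain ⟨n', ξ', h4⟩ := hW e he h2
    exact ⟨max n n', max ξ ξ', subset_inter
      ((B_mono (le_max_left _ _) (le_max_left _ _)).trans h3)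
      ((B_mono (le_max_right _ _) (le_max_right _ _)).trans h4)⟩
  isOpen_sUnion := by
    rintro s hs e he ⟨V, hV, h1⟩
    obtain ⟨n, ξ, h2⟩ := hs V hV e he h1
    exact ⟨n, ξ, h2.trans (subset_sUnion_of_mem hV)⟩

theorem isOpen_iff' [Nonempty J] {V : Set (Pt I J S η)} :
    IsOpen V ↔ ∀ e ∈ S, (pt e : Pt I J S η) ∈ V → ∃ n ξ, B S η e n ξ ⊆ V := Iff.rfl

theorem isOpen_B [Nonempty J] (e : I) (n : J) (ξ : I) : IsOpen (B S η e n ξ) := by
  rw [isOpen_iff']
  intro e' _ h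
  have := inl_mem h
  subst this
  exact ⟨n, ξ, subset_rfl⟩

/-- sets without points of `D` are open. -/
theorem isOpen_of_disj [Nonempty J] {V : Set (Pt I J S η)} (h : ∀ e ∈ S, (pt e : Pt I J S η) ∉ V) :
    IsOpen V := isOpen_iff'.2 fun e he h' => absurd h' (h e he)

theorem exists_nmem [Nonempty J] [NoMaxOrder J] (hinj : ∀ e ∈ S, Function.Injective (η e)) {e : I} (he : e ∈ S)
    {x : Pt I J S η} (hx : x ≠ pt e) : ∃ n, ∀ ξ, x ∉ B S η e n ξ := by
  rcases x with e' | ⟨a, b, c⟩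
  · exact ⟨Classical.arbitrary J, fun ξ h => hx (by rw [inl_mem h])⟩
  · by_cases h : ∃ m, η e m = a
    · obtain ⟨m0, hm0⟩ := h
      obtain ⟨m1, hm1⟩ := exists_gt m0
      refine ⟨m1, fun ξ h => ?_⟩
      rcases h with h | ⟨a', e1, h, _, _, _, ⟨m, hm, h5⟩, _⟩ | ⟨a', e0, h, _, _, ⟨m, hm, h5⟩, _⟩
      · cases h
      · injection h with h6
        have := hinj e he (hm0.trans (h6.trans h5.symm))
        exact absurd (hm1.trans_le hm) (by rw [this]; exact lt_irrefl _)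
      · injection h with h6
        have := hinj e he (hm0.trans (h6.trans h5.symm))
        exact absurd (hm1.trans_le hm) (by rw [this]; exact lt_irrefl _)
    · refine ⟨Classical.arbitrary J, fun ξ h' => ?_⟩
      rcases h' with h' | ⟨a', e1, h', _, _, _, ⟨m, hm, h5⟩, _⟩ | ⟨a', e0, h', _, _, ⟨m, hm, h5⟩, _⟩
      · cases h'
      · injection h' with h6
        exact h ⟨m, h5.trans h6.symm⟩
      · injection h' with h6
        exact h ⟨m, h5.trans h6.symm⟩

theorem t1 [Nonempty J] [NoMaxOrder J] (hinj : ∀ e ∈ S, Function.Injective (η e)) : T1Space (Pt I J S η) := by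
  refine ⟨fun x => ?_⟩
  rw [← isOpen_compl_iff, isOpen_iff']
  intro e he hx
  obtain ⟨n, hn⟩ := exists_nmem hinj he (x := x) (fun h => hx h.symm)
  exact ⟨n, e, fun y hy h => hn e (by rw [mem_singleton_iff] at h; rwa [← h])⟩

/-- a point in two basic neighbourhoods gives a common ladder point. -/
theorem common {e e' : I} (hne : e ≠ e') {n n' : J} {ξ ξ' : I} {x : Pt I J S η}
    (h : x ∈ B S η e n ξ) (h' : x ∈ B S η e' n' ξ') :
    (∃ m, n ≤ m ∧ ∃ m', n' ≤ m' ∧ η e m = η e' m') ∧ (e < e' → ξ < e') ∧ (e' < e → ξ' < e) := by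
  rcases h with h | ⟨a, e1, h, h2, h3, h4, ⟨m, hm, h5⟩, h6⟩ | ⟨a, e0, h, h2, h3, ⟨m, hm, h5⟩, h6⟩
  · subst h
    exact absurd (inl_mem h') hne
  · subst h
    rcases h' with h' | ⟨a', e1', h', k2, k3, k4, ⟨m', hm', k5⟩, k6⟩ |
      ⟨a', e0', h', k2, k3, ⟨m', hm', k5⟩, k6⟩
    · cases h'
    · injection h' with _ h7 _
      exact absurd h7 hne
    · injection h' with h7 h8 h9
      subst h7 h8 h9
      exact ⟨⟨m, hm, m', hm', h5.trans k5.symm⟩, fun _ => h4, fun h => absurd h (not_lt.2 h3.le)⟩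
  · subst h
    rcases h' with h' | ⟨a', e1', h', k2, k3, k4, ⟨m', hm', k5⟩, k6⟩ |
      ⟨a', e0', h', k2, k3, ⟨m', hm', k5⟩, k6⟩
    · cases h'
    · injection h' with h7 h8 h9
      subst h7 h8 h9
      exact ⟨⟨m, hm, m', hm', h5.trans k5.symm⟩, fun h => absurd h (not_lt.2 h3.le), fun _ => k4⟩
    · injection h' with _ _ h9
      exact absurd h9 hne

theorem normal [Nonempty J] (hunif : ∀ A : Set I, ∃ h : Set I, ∀ δ ∈ S, ∃ n, ∀ m, n ≤ m →
    (η δ m ∈ h ↔ δ ∈ A)) : NormalSpace (Pt I J S η) := by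
  classical
  refine ⟨fun F G hF hG hFG => ?_⟩
  obtain ⟨h, hh⟩ := hunif {e | (pt e : Pt I J S η) ∈ F}
  -- neighbourhoods avoiding `F` and `G`
  have hFn : ∀ e : I, ∃ n ξ, e ∈ S → (pt e : Pt I J S η) ∉ F → Disjoint (B S η e n ξ) F := by
    intro e
    by_cases he : e ∈ S ∧ (pt e : Pt I J S η) ∉ F
    · obtain ⟨n, ξ, hs⟩ := isOpen_iff'.1 hF.isOpen_compl e he.1 he.2
      exact ⟨n, ξ, fun _ _ => Set.disjoint_left.2 fun x hx => hs hx⟩
    · exact ⟨Classical.arbitrary J, e, fun h1 h2 => absurd ⟨h1, h2⟩ he⟩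
  have hGn : ∀ e : I, ∃ n ξ, e ∈ S → (pt e : Pt I J S η) ∉ G → Disjoint (B S η e n ξ) G := by
    intro e
    by_cases he : e ∈ S ∧ (pt e : Pt I J S η) ∉ G
    · obtain ⟨n, ξ, hs⟩ := isOpen_iff'.1 hG.isOpen_compl e he.1 he.2
      exact ⟨n, ξ, fun _ _ => Set.disjoint_left.2 fun x hx => hs hx⟩
    · exact ⟨Classical.arbitrary J, e, fun h1 h2 => absurd ⟨h1, h2⟩ he⟩
  have hun : ∀ e : I, ∃ n, e ∈ S → ∀ m, n ≤ m → (η e m ∈ h ↔ (pt e : Pt I J S η) ∈ F) := by
    intro e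
    by_cases he : e ∈ S
    · obtain ⟨n, hn⟩ := hh e he
      exact ⟨n, fun _ => hn⟩
    · exact ⟨Classical.arbitrary J, fun h => absurd h he⟩
  choose n1 ξ1 hF' using hFn
  choose n2 ξ2 hG' using hGn
  choose n3 h3 using hun
  let V : Set (Pt I J S η) := F ∪ ⋃ e ∈ {e | e ∈ S ∧ (pt e : Pt I J S η) ∈ F},
    B S η e (max (n2 e) (n3 e)) (ξ2 e)
  let W : Set (Pt I J S η) := G ∪ ⋃ e ∈ {e | e ∈ S ∧ (pt e : Pt I J S η) ∈ G},
    B S η e (max (n1 e) (n3 e)) (ξ1 e)
  have hFG' : ∀ e, (pt e : Pt I J S η) ∈ F → (pt e : Pt I J S η) ∉ G := fun e h1 h2 =>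
    Set.disjoint_left.1 hFG h1 h2
  have hGF' : ∀ e, (pt e : Pt I J S η) ∈ G → (pt e : Pt I J S η) ∉ F := fun e h1 h2 =>
    Set.disjoint_left.1 hFG h2 h1
  refine ⟨V, W, ?_, ?_, subset_union_left, subset_union_left, ?_⟩
  · rw [isOpen_iff']
    intro e he hV
    have heF : (pt e : Pt I J S η) ∈ F := by
      rcases hV with hV | hV
      · exact hV
      · obtain ⟨e', he', hm⟩ := mem_iUnion₂.1 hV
        rw [inl_mem hm]
        exact he'.2
    refine ⟨max (n2 e) (n3 e), ξ2 e, subset_union_of_subset_right ?_ _⟩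
    exact subset_biUnion_of_mem (u := fun e => B S η e (max (n2 e) (n3 e)) (ξ2 e))
      (show e ∈ {e | e ∈ S ∧ (pt e : Pt I J S η) ∈ F} from ⟨he, heF⟩)
  · rw [isOpen_iff']
    intro e he hV
    have heG : (pt e : Pt I J S η) ∈ G := by
      rcases hV with hV | hV
      · exact hV
      · obtain ⟨e', he', hm⟩ := mem_iUnion₂.1 hV
        rw [inl_mem hm]
        exact he'.2
    refine ⟨max (n1 e) (n3 e), ξ1 e, subset_union_of_subset_right ?_ _⟩
    exact subset_biUnion_of_mem (u := fun e => B S η e (max (n1 e) (n3 e)) (ξ1 e))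
      (show e ∈ {e | e ∈ S ∧ (pt e : Pt I J S η) ∈ G} from ⟨he, heG⟩)
  · rw [Set.disjoint_left]
    rintro x (hx | hx) (hx' | hx')
    · exact Set.disjoint_left.1 hFG hx hx'
    · obtain ⟨e', he', hm⟩ := mem_iUnion₂.1 hx'
      exact Set.disjoint_left.1 (hF' e' he'.1 (hGF' e' he'.2))
        (B_mono (le_max_left _ _) le_rfl hm) hx
    · obtain ⟨e', he', hm⟩ := mem_iUnion₂.1 hx
      exact Set.disjoint_left.1 (hG' e' he'.1 (hFG' e' he'.2))
        (B_mono (le_max_left _ _) le_rfl hm) hx'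
    · obtain ⟨e, he, hm⟩ := mem_iUnion₂.1 hx
      obtain ⟨e', he', hm'⟩ := mem_iUnion₂.1 hx'
      have hne : e ≠ e' := by
        rintro rfl
        exact hFG' e he.2 he'.2
      obtain ⟨⟨m, hmm, m', hmm', heq⟩, -⟩ := common hne hm hm'
      have h1 := (h3 e he.1 m ((le_max_right _ _).trans hmm)).2 he.2
      have h2 := (h3 e' he'.1 m' ((le_max_right _ _).trans hmm')).1 (heq ▸ h1)
      exact hGF' e' he'.2 h2

theorem character [Nonempty J] {κ : Cardinal.{0}} (h0 : ℵ₀ < κ) (hI : #I ≤ κ) (hJ : #J ≤ κ) (x : Pt I J S η) :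
    ∃ N : Set (Set (Pt I J S η)), #↥N ≤ κ ∧ (nhds x).HasBasis (fun s => s ∈ N) id := by
  classical
  by_cases hx : ∃ e ∈ S, x = pt e
  · obtain ⟨e, he, rfl⟩ := hx
    refine ⟨range fun p : J × I => B S η e p.1 p.2, ?_, ?_⟩
    · refine mk_range_le.trans ?_
      rw [mk_prod, Cardinal.lift_id, Cardinal.lift_id]
      calc #J * #I ≤ κ * κ := by gcongr
        _ = κ := mul_eq_self h0.le
    · refine ⟨fun t => ⟨fun ht => ?_, ?_⟩⟩
      · obtain ⟨V, hV, hVo, hm⟩ := mem_nhds_iff.1 ht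
        obtain ⟨n, ξ, hs⟩ := isOpen_iff'.1 hVo e he hm
        exact ⟨_, ⟨(n, ξ), rfl⟩, hs.trans hV⟩
      · rintro ⟨_, ⟨p, rfl⟩, hs⟩
        exact Filter.mem_of_superset ((isOpen_B e p.1 p.2).mem_nhds (self_mem _ _ _)) hs
  · refine ⟨{{x}}, ?_, ?_⟩
    · rw [mk_singleton]
      exact one_le_aleph0.trans h0.le
    · have hopen : IsOpen ({x} : Set (Pt I J S η)) := isOpen_of_disj fun e he h =>
        hx ⟨e, he, (mem_singleton_iff.1 h).symm⟩
      refine ⟨fun t => ⟨fun ht => ⟨{x}, rfl, ?_⟩, ?_⟩⟩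
      · exact singleton_subset_iff.2 (mem_of_mem_nhds ht)
      · rintro ⟨s, hs, hst⟩
        rw [mem_singleton_iff] at hs
        subst hs
        exact Filter.mem_of_superset (hopen.mem_nhds rfl) hst

theorem small_cwH [Nonempty J] [NoMaxOrder J] {κ : Cardinal.{0}} (hinj : ∀ e ∈ S, Function.Injective (η e))
    (hbd : ∀ T : Set I, #T < κ → ∃ ξ, ∀ t ∈ T, t ≤ ξ)
    (D : Set (Pt I J S η)) (hD : IsClosed D) (hdis : DiscreteTopology ↥D) (hcard : #↥D < κ) :
    ∃ U : Pt I J S η → Set (Pt I J S η), (∀ d ∈ D, IsOpen (U d) ∧ d ∈ U d) ∧ D.PairwiseDisjoint U := by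
  classical
  have := t1 hinj
  -- bound for the indices
  have hT : #({e | (pt e : Pt I J S η) ∈ D} : Set I) < κ := by
    refine lt_of_le_of_lt ?_ hcard
    refine mk_le_of_injective (f := fun e : ({e | (pt e : Pt I J S η) ∈ D} : Set I) =>
      (⟨pt e.1, e.2⟩ : ↥D)) ?_
    intro e e' h
    have h1 := congrArg Subtype.val h
    simp only at h1
    injection h1 with h2
    exact Subtype.ext h2
  obtain ⟨ξ, hξ⟩ := hbd _ hT
  -- isolate the points of `D`
  have hiso : ∀ e : I, ∃ n ξ', e ∈ S → (pt e : Pt I J S η) ∈ D →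
      ∀ y ∈ D, y ∈ B S η e n ξ' → y = pt e := by
    intro e
    by_cases he : e ∈ S ∧ (pt e : Pt I J S η) ∈ D
    · have hcl : IsClosed (D \ {(pt e : Pt I J S η)}) := by
        have h1 : IsClosed ((Subtype.val : ↥D → Pt I J S η) ⁻¹' (D \ {(pt e : Pt I J S η)})) :=
          isClosed_discrete _
        have h2 := hD.isClosedEmbedding_subtypeVal.isClosedMap _ h1
        rwa [Subtype.image_preimage_coe, inter_eq_self_of_subset_right sdiff_subset] at h2
      obtain ⟨n, ξ', hs⟩ := isOpen_iff'.1 hcl.isOpen_compl e he.1 (fun h => h.2 rfl)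
      refine ⟨n, ξ', fun _ _ y hy hyB => ?_⟩
      by_contra hne
      exact hs hyB ⟨hy, hne⟩
    · exact ⟨Classical.arbitrary J, e, fun h1 h2 => absurd ⟨h1, h2⟩ he⟩
  choose n ξ' hn using hiso
  refine ⟨fun x => match x with
    | pt e => if e ∈ S then B S η e (n e) (max (ξ' e) ξ) else {pt e}
    | q a b c => {q a b c}, ?_, ?_⟩
  · rintro (e | ⟨a, b, c⟩) hx
    · by_cases he : e ∈ S
      · simp only [if_pos he]
        exact ⟨isOpen_B _ _ _, self_mem _ _ _⟩
      · simp only [if_neg he]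
        refine ⟨isOpen_of_disj fun e' he' h => ?_, rfl⟩
        injection (mem_singleton_iff.1 h) with h1
        exact he (h1 ▸ he')
    · refine ⟨isOpen_of_disj fun e' he' h => ?_, rfl⟩
      cases (mem_singleton_iff.1 h)
  · -- the general comparison
    have key : ∀ e, e ∈ S → (pt e : Pt I J S η) ∈ D → ∀ y ∈ D, y ≠ pt e →
        y ∉ B S η e (n e) (max (ξ' e) ξ) := fun e he heD y hy hne hB =>
      hne (hn e he heD y hy (B_mono le_rfl (le_max_left _ _) hB))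
    have two : ∀ e e', e ∈ S → e' ∈ S → (pt e : Pt I J S η) ∈ D → (pt e' : Pt I J S η) ∈ D → e ≠ e' →
        Disjoint (B S η e (n e) (max (ξ' e) ξ)) (B S η e' (n e') (max (ξ' e') ξ)) := by
      intro e e' he he' hD1 hD2 hne
      rw [Set.disjoint_left]
      intro x h1 h2
      obtain ⟨-, h3, h4⟩ := common hne h1 h2
      rcases lt_or_gt_of_ne hne with h | h
      · exact absurd (hξ e' hD2) (not_le.2 (lt_of_le_of_lt (le_max_right _ _) (h3 h)))
      · exact absurd (hξ e hD1) (not_le.2 (lt_of_le_of_lt (le_max_right _ _) (h4 h)))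
    rintro (e | ⟨a, b, c⟩) hx (e' | ⟨a', b', c'⟩) hy hne
    · simp only [Function.onFun]
      have hne' : e ≠ e' := fun h => hne (by rw [h])
      by_cases he : e ∈ S <;> by_cases he' : e' ∈ S
      · rw [if_pos he, if_pos he']
        exact two e e' he he' hx hy hne'
      · rw [if_pos he, if_neg he']
        exact Set.disjoint_singleton_right.2 (key e he hx _ hy hne.symm)
      · rw [if_neg he, if_pos he']
        exact Set.disjoint_singleton_left.2 (key e' he' hy _ hx hne)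
      · rw [if_neg he, if_neg he']
        exact Set.disjoint_singleton.2 hne
    · simp only [Function.onFun]
      by_cases he : e ∈ S
      · rw [if_pos he]
        exact Set.disjoint_singleton_right.2 (key e he hx _ hy hne.symm)
      · rw [if_neg he]
        exact Set.disjoint_singleton.2 hne
    · simp only [Function.onFun]
      by_cases he' : e' ∈ S
      · rw [if_pos he']
        exact Set.disjoint_singleton_left.2 (key e' he' hy _ hx hne)
      · rw [if_neg he']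
        exact Set.disjoint_singleton.2 hne
    · exact Set.disjoint_singleton.2 hne

theorem D_closed [Nonempty J] : IsClosed ((pt : I → Pt I J S η) '' S) := by
  rw [← isOpen_compl_iff]
  exact isOpen_of_disj fun e he h => h ⟨e, he, rfl⟩

theorem D_discrete [Nonempty J] : DiscreteTopology ↥((pt : I → Pt I J S η) '' S) := by
  rw [discreteTopology_subtype_iff']
  rintro _ ⟨e, he, rfl⟩
  refine ⟨B S η e (Classical.arbitrary J) e, isOpen_B _ _ _, ?_⟩
  ext x
  constructor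
  · rintro ⟨h1, e', he', rfl⟩
    rw [inl_mem h1]
    rfl
  · intro h
    rw [mem_singleton_iff] at h
    subst h
    exact ⟨self_mem _ _ _, e, he, rfl⟩

/-- `D` is not separated, by a pressing down argument. -/
theorem D_not_separated [Nonempty J]
    (hpress : ∀ n : I → J, ∃ k a, ∀ β : I, ∃ e ∈ S, β < e ∧ n e = k ∧ η e k = a) :
    ¬ ∃ U : Pt I J S η → Set (Pt I J S η), (∀ d ∈ (pt : I → Pt I J S η) '' S, IsOpen (U d) ∧ d ∈ U d) ∧
      ((pt : I → Pt I J S η) '' S).PairwiseDisjoint U := by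
  rintro ⟨U, hU, hdisj⟩
  have h : ∀ e : I, ∃ n ξ, e ∈ S → B S η e n ξ ⊆ U (pt e) := by
    intro e
    by_cases he : e ∈ S
    · obtain ⟨h1, h2⟩ := hU (pt e) ⟨e, he, rfl⟩
      obtain ⟨n, ξ, hs⟩ := isOpen_iff'.1 h1 e he h2
      exact ⟨n, ξ, fun _ => hs⟩
    · exact ⟨Classical.arbitrary J, e, fun h => absurd h he⟩
  choose n ξ hn using h
  obtain ⟨k, a, hk⟩ := hpress n
  have hne : Nonempty I := ⟨a⟩
  obtain ⟨e, he, -, hek, hea⟩ := hk a
  obtain ⟨e1, he1, hlt, he1k, he1a⟩ := hk (max e (ξ e))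
  have hee1 : e < e1 := lt_of_le_of_lt (le_max_left _ _) hlt
  have h1 : (q a e e1 : Pt I J S η) ∈ B S η e (n e) (ξ e) :=
    Or.inr (Or.inl ⟨a, e1, rfl, he1, hee1, lt_of_le_of_lt (le_max_right _ _) hlt,
      ⟨k, hek.le, hea⟩, k, he1a⟩)
  have h2 : (q a e e1 : Pt I J S η) ∈ B S η e1 (n e1) (ξ e1) :=
    Or.inr (Or.inr ⟨a, e, rfl, he, hee1, ⟨k, he1k.le, he1a⟩, k, hea⟩)
  have h3 : (pt e : Pt I J S η) ≠ pt e1 := by
    intro h
    injection h with h4
    exact hee1.ne h4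
  exact Set.disjoint_left.1 (hdisj ⟨e, he, rfl⟩ ⟨e1, he1, rfl⟩ h3) (hn e he h1) (hn e1 he1 h2)

end Pt

end Pool.Agent.Work.MP_f3e7a9_gt
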