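import Pool.Agent.Work.MP_f3e7a9_gt.Base

/-!
A guessing principle for systems of subtle sets.
-/

namespace Pool.Agent.Work.MP_f3e7a9_gt

open Set Cardinal

/-- data: a set and two functions -/
structure Data where
  A : Set Ordinal.{0}
  f : Ordinal.{0} → Ordinal.{0}
  c : Ordinal.{0} → Ordinal.{0}

instance : Inhabited Data := ⟨⟨∅, id, id⟩⟩

/-- `x` and `y` have the same set and the same function `f` below `γ`. -/
def Agree (γ : Ordinal.{0}) (x y : Data) : Prop :=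
  ∀ α < γ, (α ∈ x.A ↔ α ∈ y.A) ∧ x.f α = y.f α

/-- relation coding a triple -/
def rel (x : Data) (a b : Ordinal.{0}) (i : Fin 3) : Prop :=
  if i = 0 then a ∈ x.A else if i = 1 then b = x.f a else b = x.c a

theorem subtle_data {κ : Cardinal.{0}} (h0 : ℵ₀ < κ) (hr : κ.IsRegular)
    (Q : Ordinal.{0} → Prop)
    (hS : ∀ A : Ordinal.{0} → Set Ordinal.{0}, (∀ α < κ.ord, A α ⊆ Iio α) →
      ∀ g : Ordinal.{0} → Ordinal.{0}, (∀ α < κ.ord, g α < κ.ord) →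
      ∃ α ∈ Cl κ g, ∃ β ∈ Cl κ g, Q α ∧ Q β ∧ α < β ∧ A α = A β ∩ Iio α)
    (D : Ordinal.{0} → Data)
    (g : Ordinal.{0} → Ordinal.{0}) (hg : ∀ α < κ.ord, g α < κ.ord)
    (hD : ∀ δ ∈ Cl κ g, Q δ → ∀ α < δ, (D δ).f α < δ ∧ (D δ).c α < δ) :
    ∃ α ∈ Cl κ g, ∃ β ∈ Cl κ g, Q α ∧ Q β ∧ α < β ∧ Agree α (D α) (D β) ∧
      ∀ x < α, (D α).c x = (D β).c x := by
  obtain ⟨p, hp1, hp2⟩ := exists_pairing h0
  -- majorant of p
  have hM : ∀ a : Ordinal.{0}, ∃ b, a < κ.ord → (b < κ.ord ∧ ∀ x ≤ a, ∀ y ≤ a, ∀ i,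
      p x y i < b) := by
    intro a
    by_cases ha : a < κ.ord
    · have h1 := card_Iic_lt hr ha
      have h2 : #(Iic a × Iic a × Fin 3) < Cardinal.lift.{1} κ := by
        have hk0 : ℵ₀ ≤ Cardinal.lift.{1} κ := by simpa using h0.le
        simp only [mk_prod, Cardinal.lift_id, mk_fin, Cardinal.lift_natCast, Cardinal.lift_uzero]
        refine mul_lt_of_lt hk0 h1 (mul_lt_of_lt hk0 h1 ?_)
        exact (natCast_lt_aleph0 (n := 3)).trans_le hk0
      obtain ⟨b, hb, hb'⟩ := exists_bound hr h2 (fun x => p x.1 x.2.1 x.2.2)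
        (fun x => hp1 _ (lt_of_le_of_lt x.1.2 ha) _ (lt_of_le_of_lt x.2.1.2 ha) _)
      exact ⟨b, fun _ => ⟨hb, fun x hx y hy i => hb' (⟨x, hx⟩, ⟨y, hy⟩, i)⟩⟩
    · exact ⟨0, fun h => absurd h ha⟩
  choose M hM using hM
  -- the code
  let A : Ordinal.{0} → Set Ordinal.{0} := fun δ =>
    {z | z < δ ∧ ∃ a < δ, ∃ b < δ, ∃ i, rel (D δ) a b i ∧ z = p a b i}
  obtain ⟨α, hα, β, hβ, qα, qβ, hαβ, hAA⟩ := hS A (fun δ _ z hz => hz.1)
    (fun x => max (g x) (M x)) (fun x hx => max_lt (hg x hx) (hM x hx).1)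
  have cg : ∀ δ, δ ∈ Cl κ (fun x => max (g x) (M x)) → δ ∈ Cl κ g := fun δ hδ =>
    ⟨hδ.1, hδ.2.1, fun x hx => lt_of_le_of_lt (le_max_left _ _) (hδ.2.2 x hx)⟩
  have cp : ∀ δ, δ ∈ Cl κ (fun x => max (g x) (M x)) → ∀ a < δ, ∀ b < δ, ∀ i, p a b i < δ := by
    intro δ hδ a ha b hb i
    have hm : max a b < δ := max_lt ha hb
    have := (hM (max a b) (hm.trans hδ.1)).2 a (le_max_left _ _) b (le_max_right _ _) i
    exact this.trans (lt_of_le_of_lt (le_max_right _ _) (hδ.2.2 _ hm))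
  have key : ∀ a < α, ∀ b < α, ∀ i, rel (D α) a b i → rel (D β) a b i := by
    intro a ha b hb i h
    have h1 : p a b i ∈ A α := ⟨cp α hα a ha b hb i, a, ha, b, hb, i, h, rfl⟩
    rw [hAA] at h1
    obtain ⟨_, a', ha', b', hb', i', h', he⟩ := h1.1
    obtain ⟨rfl, rfl, rfl⟩ := hp2 a (ha.trans hα.1) b (hb.trans hα.1) i a' (ha'.trans hβ.1) b'
      (hb'.trans hβ.1) i' he
    exact h'
  have key' : ∀ a < α, ∀ b < α, ∀ i, rel (D β) a b i → rel (D α) a b i := by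
    intro a ha b hb i h
    have h1 : p a b i ∈ A β ∩ Iio α :=
      ⟨⟨cp β hβ a (ha.trans hαβ) b (hb.trans hαβ) i, a, ha.trans hαβ, b, hb.trans hαβ, i, h, rfl⟩,
        cp α hα a ha b hb i⟩
    rw [← hAA] at h1
    obtain ⟨_, a', ha', b', hb', i', h', he⟩ := h1
    obtain ⟨rfl, rfl, rfl⟩ := hp2 a (ha.trans hα.1) b (hb.trans hα.1) i a' (ha'.trans hα.1) b'
      (hb'.trans hα.1) i' he
    exact h'
  have hpos : (0 : Ordinal.{0}) < α := by
    exact pos_iff_ne_zero.2 (by simpa using hα.2.1.ne_bot)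
  refine ⟨α, cg α hα, β, cg β hβ, qα, qβ, hαβ, ?_, ?_⟩
  · intro x hx
    refine ⟨⟨fun h => ?_, fun h => ?_⟩, ?_⟩
    · have := key x hx 0 hpos 0 (by simpa [rel] using h)
      simpa [rel] using this
    · have := key' x hx 0 hpos 0 (by simpa [rel] using h)
      simpa [rel] using this
    · have := key x hx ((D α).f x) (hD α (cg α hα) qα x hx).1 1 (by simp [rel])
      simpa [rel] using this
  · intro x hx
    have := key x hx ((D α).c x) (hD α (cg α hα) qα x hx).2 2 (by simp [rel])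
    simpa [rel] using this

/-- admissibility of a triple at stage `δ`, given the history. -/
def Ok (Bad : Ordinal.{0} → (Ordinal.{0} → Ordinal.{0}) → Prop) (δ : Ordinal.{0})
    (ih : ∀ γ < δ, Option Data) (x : Data) : Prop :=
  (∀ α < δ, x.f α < δ ∧ x.c α < δ) ∧ Bad δ x.f ∧
    ∀ γ (hγ : γ < δ), Order.IsSuccLimit γ → (∀ α < γ, x.c α < γ) →
      ∀ y, ih γ hγ = some y → ¬ Agree γ x y

open Classical in
/-- the recursion -/
noncomputable def step (Bad : Ordinal.{0} → (Ordinal.{0} → Ordinal.{0}) → Prop) (δ : Ordinal.{0})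
    (ih : ∀ γ, γ < δ → Option Data) : Option Data :=
  if h : ∃ x, Ok Bad δ ih x then some h.choose else none

/-- the guessing sequence -/
noncomputable def hist (Bad : Ordinal.{0} → (Ordinal.{0} → Ordinal.{0}) → Prop) :
    Ordinal.{0} → Option Data :=
  WellFounded.fix Ordinal.lt_wf (step Bad)

theorem hist_eq (Bad : Ordinal.{0} → (Ordinal.{0} → Ordinal.{0}) → Prop) (δ : Ordinal.{0}) :
    hist Bad δ = step Bad δ (fun γ _ => hist Bad γ) := by
  rw [hist, WellFounded.fix_eq]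

theorem hist_ok {Bad : Ordinal.{0} → (Ordinal.{0} → Ordinal.{0}) → Prop} {δ : Ordinal.{0}}
    {x : Data} (h : hist Bad δ = some x) : Ok Bad δ (fun γ _ => hist Bad γ) x := by
  rw [hist_eq, step] at h
  split_ifs at h with h1
  · have := h1.choose_spec
    simp only [Option.some.injEq] at h
    rwa [h] at this

theorem hist_some {Bad : Ordinal.{0} → (Ordinal.{0} → Ordinal.{0}) → Prop} {δ : Ordinal.{0}}
    {x : Data} (h : Ok Bad δ (fun γ _ => hist Bad γ) x) : ∃ y, hist Bad δ = some y := by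
  rw [hist_eq, step]
  exact ⟨_, dif_pos ⟨x, h⟩⟩

/-- If for every `f` the set of `δ` with `Bad δ f` is subtle, then there is a sequence of guesses
`(A_δ, f_δ)` with `Bad δ f_δ` such that every pair `(A, f)` is guessed at stationarily many `δ`. -/
theorem guess {κ : Cardinal.{0}} (h0 : ℵ₀ < κ) (hr : κ.IsRegular)
    (Bad : Ordinal.{0} → (Ordinal.{0} → Ordinal.{0}) → Prop)
    (hS : ∀ f : Ordinal.{0} → Ordinal.{0}, (∀ α < κ.ord, f α < κ.ord) →
      ∀ A : Ordinal.{0} → Set Ordinal.{0}, (∀ α < κ.ord, A α ⊆ Iio α) →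
      ∀ g : Ordinal.{0} → Ordinal.{0}, (∀ α < κ.ord, g α < κ.ord) →
      ∃ α ∈ Cl κ g, ∃ β ∈ Cl κ g, Bad α f ∧ Bad β f ∧ α < β ∧ A α = A β ∩ Iio α)
    (A : Set Ordinal.{0}) (f : Ordinal.{0} → Ordinal.{0}) (hf : ∀ α < κ.ord, f α < κ.ord)
    (g : Ordinal.{0} → Ordinal.{0}) (hg : ∀ α < κ.ord, g α < κ.ord) :
    ∃ δ ∈ Cl κ g, ∃ y, hist Bad δ = some y ∧ Agree δ ⟨A, f, g⟩ y := by
  by_contra hcon
  push Not at hcon
  have hok : ∀ δ, δ ∈ Cl κ (fun x => max (f x) (g x)) → Bad δ f →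
      Ok Bad δ (fun γ _ => hist Bad γ) ⟨A, f, g⟩ := by
    intro δ hδ hb
    refine ⟨fun α hα => ⟨lt_of_le_of_lt (le_max_left _ _) (hδ.2.2 α hα),
      lt_of_le_of_lt (le_max_right _ _) (hδ.2.2 α hα)⟩, hb, ?_⟩
    intro γ hγ hlim hcl y hy
    exact hcon γ ⟨hγ.trans hδ.1, hlim, hcl⟩ y hy
  let D : Ordinal.{0} → Data := fun δ => (hist Bad δ).getD default
  have hD : ∀ δ, δ ∈ Cl κ (fun x => max (f x) (g x)) → Bad δ f → hist Bad δ = some (D δ) := by
    intro δ hδ hb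
    obtain ⟨y, hy⟩ := hist_some (hok δ hδ hb)
    simp [D, hy]
  obtain ⟨α, hα, β, hβ, qα, qβ, hαβ, hag, hc⟩ := subtle_data h0 hr (fun δ => Bad δ f)
    (hS f hf) D (fun x => max (f x) (g x)) (fun x hx => max_lt (hf x hx) (hg x hx))
    (fun δ hδ hb => (hist_ok (hD δ hδ hb)).1)
  have h1 := hist_ok (hD α hα qα)
  have h2 := hist_ok (hD β hβ qβ)
  refine h2.2.2 α hαβ hα.2.1 (fun x hx => ?_) (D α) (hD α hα qα) (fun x hx => ?_)
  · rw [← hc x hx]
    exact (h1.1 x hx).2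
  · exact ⟨(hag x hx).1.symm, (hag x hx).2.symm⟩

end Pool.Agent.Work.MP_f3e7a9_gt
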