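import Pool.Agent.Work.MP_f3e7a9_gt.Guess

/-!
Closed discrete sets in normal spaces, separated modulo the subtle ideal.
-/

namespace Pool.Agent.Work.MP_f3e7a9_gt

open Set Cardinal Topology

variable {κ : Cardinal.{0}} {X : Type} [TopologicalSpace X]

/-- some later point of the sequence lies in the closure of the union of the neighbourhoods
chosen for the points below `δ`. -/
def Bad (κ : Cardinal.{0}) (d : Ordinal.{0} → X) (U : Ordinal.{0} → Ordinal.{0} → Set X)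
    (δ : Ordinal.{0}) (f : Ordinal.{0} → Ordinal.{0}) : Prop :=
  ∃ β, δ ≤ β ∧ β < κ.ord ∧ d β ∈ closure (⋃ α ∈ Iio δ, U (f α) α)

theorem exists_good [NormalSpace X] (h0 : ℵ₀ < κ) (hr : κ.IsRegular)
    (d : Ordinal.{0} → X) (hd : InjOn d (Iio κ.ord))
    (hcl : ∀ S ⊆ Iio κ.ord, IsClosed (d '' S))
    (U : Ordinal.{0} → Ordinal.{0} → Set X)
    (hU : ∀ α < κ.ord, ∀ V : Set X, IsOpen V → d α ∈ V → ∃ i < κ.ord, U i α ⊆ V) :
    ∃ f : Ordinal.{0} → Ordinal.{0}, (∀ α < κ.ord, f α < κ.ord) ∧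
      ∃ A : Ordinal.{0} → Set Ordinal.{0}, (∀ α < κ.ord, A α ⊆ Iio α) ∧
      ∃ g : Ordinal.{0} → Ordinal.{0}, (∀ α < κ.ord, g α < κ.ord) ∧
      ¬ ∃ α ∈ Cl κ g, ∃ β ∈ Cl κ g, Bad κ d U α f ∧ Bad κ d U β f ∧ α < β ∧
        A α = A β ∩ Iio α := by
  classical
  by_contra hcon
  push Not at hcon
  have hguess := guess h0 hr (Bad κ d U) (fun f hf A hA g hg => hcon f hf A hA g hg)
  have hκ0 : (0 : Ordinal.{0}) < κ.ord := hr.ord_pos
  -- witnesses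
  have hw : ∀ δ : Ordinal.{0}, ∃ b < κ.ord, ∀ y, hist (Bad κ d U) δ = some y →
      δ ≤ b ∧ d b ∈ closure (⋃ α ∈ Iio δ, U (y.f α) α) := by
    intro δ
    cases h : hist (Bad κ d U) δ with
    | none => exact ⟨0, hκ0, fun y hy => by simp at hy⟩
    | some y =>
      obtain ⟨b, h1, h2, h3⟩ := (hist_ok h).2.1
      refine ⟨b, h2, fun y' hy' => ?_⟩
      simp only [Option.some.injEq] at hy'
      subst hy'
      exact ⟨h1, h3⟩
  choose w hw1 hw2 using hw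
  let A : Set Ordinal.{0} := {β | ∃ δ ∈ Cl κ w, w δ = β ∧ ∃ y, hist (Bad κ d U) δ = some y ∧
    d (w δ) ∉ closure (⋃ α ∈ {α | α < δ ∧ α ∈ y.A}, U (y.f α) α)}
  have hdisj : Disjoint (d '' (A ∩ Iio κ.ord)) (d '' (Iio κ.ord \ A)) := by
    rw [Set.disjoint_left]
    rintro _ ⟨a, ha, rfl⟩ ⟨b, hb, hab⟩
    have := hd hb.1 ha.2 hab
    subst this
    exact hb.2 ha.1
  obtain ⟨V1, V0, hV1, hV0, hA1, hA0, hV⟩ := normal_separation (hcl (A ∩ Iio κ.ord) inter_subset_right)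
    (hcl (Iio κ.ord \ A) sdiff_subset) hdisj
  have hf : ∀ α : Ordinal.{0}, ∃ i, α < κ.ord → i < κ.ord ∧ (α ∈ A → U i α ⊆ V1) ∧
      (α ∉ A → U i α ⊆ V0) := by
    intro α
    by_cases hα : α < κ.ord
    · by_cases hA : α ∈ A
      · obtain ⟨i, hi, hi'⟩ := hU α hα V1 hV1 (hA1 ⟨α, ⟨hA, hα⟩, rfl⟩)
        exact ⟨i, fun _ => ⟨hi, fun _ => hi', fun h => absurd hA h⟩⟩
      · obtain ⟨i, hi, hi'⟩ := hU α hα V0 hV0 (hA0 ⟨α, ⟨hα, hA⟩, rfl⟩)
        exact ⟨i, fun _ => ⟨hi, fun h => absurd h hA, fun _ => hi'⟩⟩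
    · exact ⟨0, fun h => absurd h hα⟩
  choose f hf using hf
  obtain ⟨δ, hδ, y, hy, hag⟩ := hguess A f (fun α hα => (hf α hα).1) (fun x => max (f x) (w x))
    (fun x hx => max_lt (hf x hx).1 (hw1 x))
  have hδw : δ ∈ Cl κ w := ⟨hδ.1, hδ.2.1, fun x hx => lt_of_le_of_lt (le_max_right _ _)
    (hδ.2.2 x hx)⟩
  obtain ⟨hb1, hb2⟩ := hw2 δ y hy
  by_cases hε : d (w δ) ∈ closure (⋃ α ∈ {α | α < δ ∧ α ∈ y.A}, U (y.f α) α)
  · have hnA : w δ ∉ A := by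
      rintro ⟨δ', hδ', he, y', hy', hne⟩
      have hdd : δ' = δ := by
        rcases lt_trichotomy δ' δ with h | h | h
        · have h1 := hδw.2.2 δ' h
          rw [he] at h1
          exact absurd hb1 (not_le.2 h1)
        · exact h
        · have h1 := hδ'.2.2 δ h
          rw [← he] at h1
          exact absurd (hw2 δ' y' hy').1 (not_le.2 h1)
      subst hdd
      rw [hy] at hy'
      simp only [Option.some.injEq] at hy'
      subst hy'
      exact hne hε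
    have h0' : d (w δ) ∈ V0 := hA0 ⟨w δ, ⟨hw1 δ, hnA⟩, rfl⟩
    have hsub : (⋃ α ∈ {α | α < δ ∧ α ∈ y.A}, U (y.f α) α) ⊆ V1 := by
      refine iUnion₂_subset fun α hα => ?_
      have h1 := hag α hα.1
      have hαA : α ∈ A := h1.1.2 hα.2
      have h2 : y.f α = f α := h1.2.symm
      rw [h2]
      exact (hf α (hα.1.trans hδ.1)).2.1 hαA
    have h1' := closure_mono hsub hε
    rw [mem_closure_iff] at h1'
    obtain ⟨z, hz0, hz1⟩ := h1' V0 hV0 h0'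
    exact Set.disjoint_left.1 hV hz1 hz0
  · have hA' : w δ ∈ A := ⟨δ, hδw, rfl, y, hy, hε⟩
    have h1' : d (w δ) ∈ V1 := hA1 ⟨w δ, ⟨hA', hw1 δ⟩, rfl⟩
    have hsplit : (⋃ α ∈ Iio δ, U (y.f α) α) ⊆ (⋃ α ∈ {α | α < δ ∧ α ∈ y.A}, U (y.f α) α) ∪ V0 := by
      refine iUnion₂_subset fun α hα => ?_
      by_cases hαA : α ∈ y.A
      · refine subset_union_of_subset_left ?_ _
        exact subset_biUnion_of_mem (u := fun α => U (y.f α) α) (show α ∈ {α | α < δ ∧ α ∈ y.A}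
          from ⟨hα, hαA⟩)
      · refine subset_union_of_subset_right ?_ _
        have h1 := hag α hα
        have h2 : y.f α = f α := h1.2.symm
        rw [h2]
        exact (hf α (lt_trans hα hδ.1)).2.2 fun h => hαA (h1.1.1 h)
    have h2' := closure_mono hsplit hb2
    rw [closure_union] at h2'
    rcases h2' with h | h
    · exact hε h
    · rw [mem_closure_iff] at h
      obtain ⟨z, hz1, hz0⟩ := h V1 hV1 h1'
      exact Set.disjoint_left.1 hV hz1 hz0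

theorem separated_mod [NormalSpace X] (h0 : ℵ₀ < κ) (hr : κ.IsRegular)
    (hcw : ∀ D : Set X, IsClosed D → DiscreteTopology ↥D → #↥D < κ →
      ∃ U : X → Set X, (∀ d ∈ D, IsOpen (U d) ∧ d ∈ U d) ∧ D.PairwiseDisjoint U)
    (d : Ordinal.{0} → X) (hd : InjOn d (Iio κ.ord))
    (hcl : ∀ S ⊆ Iio κ.ord, IsClosed (d '' S))
    (hdis : ∀ S ⊆ Iio κ.ord, DiscreteTopology ↥(d '' S))
    (U : Ordinal.{0} → Ordinal.{0} → Set X)
    (hUo : ∀ α < κ.ord, ∀ i, IsOpen (U i α) ∧ d α ∈ U i α)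
    (hU : ∀ α < κ.ord, ∀ V : Set X, IsOpen V → d α ∈ V → ∃ i < κ.ord, U i α ⊆ V) :
    ∃ H ⊆ Iio κ.ord, ¬ SubtleOn κ (Iio κ.ord \ H) ∧
      ∃ W : X → Set X, (∀ x ∈ d '' H, IsOpen (W x) ∧ x ∈ W x) ∧ (d '' H).PairwiseDisjoint W := by
  classical
  obtain ⟨f, hf, A0, hA0, g0, hg0, hno⟩ := exists_good h0 hr d hd hcl U hU
  let G : Set Ordinal.{0} := {δ | δ < κ.ord ∧ ¬ Bad κ d U δ f}
  let P : Ordinal.{0} → Ordinal.{0} → Prop := fun β δ =>
    δ ∈ G ∧ δ ≤ β ∧ (∀ γ ∈ G, γ ≤ β → γ ≤ δ) ∧ ∃ γ ∈ G, β < γ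
  let H : Set Ordinal.{0} := {β | β < κ.ord ∧ ∃ δ, P β δ}
  refine ⟨H, fun β hβ => hβ.1, ?_, ?_⟩
  · intro hsub
    -- the possible maximum of `G`
    have hm : ∃ m < κ.ord, ∀ β ∈ G, (∀ γ ∈ G, ¬ β < γ) → β ≤ m := by
      by_cases h : ∃ m ∈ G, ∀ γ ∈ G, ¬ m < γ
      · obtain ⟨m, hm, hm'⟩ := h
        exact ⟨m, hm.1, fun β hβ _ => not_lt.1 (hm' β hβ)⟩
      · exact ⟨0, hr.ord_pos, fun β hβ hβ' => absurd ⟨β, hβ, hβ'⟩ h⟩
    obtain ⟨m, hm, hm'⟩ := hm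
    obtain ⟨α, hα, β, hβ, hαβ, hAA⟩ := hsub.fn h0 hr A0 hA0 (fun x => max (g0 x) m)
      (fun x hx => max_lt (hg0 x hx) hm)
    have hbad : ∀ δ ∈ Cl κ (fun x => max (g0 x) m) ∩ (Iio κ.ord \ H), Bad κ d U δ f := by
      intro δ hδ
      by_contra hnb
      have hδG : δ ∈ G := ⟨hδ.1.1, hnb⟩
      have hmδ : m < δ := by
        have h1 : (0 : Ordinal.{0}) < δ := pos_iff_ne_zero.2 (by simpa using hδ.1.2.1.ne_bot)
        exact lt_of_le_of_lt (le_max_right _ _) (hδ.1.2.2 0 h1)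
      by_cases hex : ∃ γ ∈ G, δ < γ
      · exact hδ.2.2 ⟨hδ.1.1, δ, hδG, le_rfl, fun γ _ h => h, hex⟩
      · push Not at hex
        have := hm' δ hδG (fun γ hγ => not_lt.2 (hex γ hγ))
        exact absurd this (not_le.2 hmδ)
    have hc0 : ∀ δ, δ ∈ Cl κ (fun x => max (g0 x) m) → δ ∈ Cl κ g0 := fun δ hδ =>
      ⟨hδ.1, hδ.2.1, fun x hx => lt_of_le_of_lt (le_max_left _ _) (hδ.2.2 x hx)⟩
    exact hno ⟨α, hc0 α hα.1, β, hc0 β hβ.1, hbad α hα, hbad β hβ, hαβ, hAA⟩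
  · -- separation
    have hblock : ∀ δ : Ordinal.{0}, ∃ γ : Ordinal.{0}, ∃ V : X → Set X, (∃ γ ∈ G, δ < γ) →
        (γ ∈ G ∧ δ < γ ∧ (∀ x ∈ d '' (Iio γ), IsOpen (V x) ∧ x ∈ V x) ∧
          (d '' (Iio γ)).PairwiseDisjoint V) := by
      intro δ
      by_cases h : ∃ γ ∈ G, δ < γ
      · obtain ⟨γ, hγ, hδγ⟩ := h
        have hsub : Iio γ ⊆ Iio κ.ord := Iio_subset_Iio hγ.1.le
        have hcard : #↥(d '' (Iio γ)) < κ := by
          have h1 : Cardinal.lift.{1} #↥(d '' (Iio γ)) ≤ #(Iio γ) := by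
            have := Cardinal.mk_image_le_lift (f := d) (s := Iio γ)
            simpa using this
          have h2 : #(Iio γ) < Cardinal.lift.{1} κ := by
            rw [Cardinal.mk_Iio_ordinal, Cardinal.lift_lt]
            exact lt_ord.1 hγ.1
          exact Cardinal.lift_lt.1 (h1.trans_lt h2)
        obtain ⟨V, hV1, hV2⟩ := hcw _ (hcl _ hsub) (hdis _ hsub) hcard
        exact ⟨γ, V, fun _ => ⟨hγ, hδγ, hV1, hV2⟩⟩
      · exact ⟨0, fun _ => ∅, fun h' => absurd h' h⟩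
    choose nx V hV using hblock
    have hPe : ∀ β : Ordinal.{0}, ∃ δ, (∃ δ, P β δ) → P β δ := by
      intro β
      by_cases h : ∃ δ, P β δ
      · exact ⟨h.choose, fun _ => h.choose_spec⟩
      · exact ⟨0, fun h' => absurd h' h⟩
    choose r hrP using hPe
    have hrH : ∀ β ∈ H, P β (r β) := fun β hβ => hrP β hβ.2
    have hnx : ∀ β ∈ H, β < nx (r β) := by
      intro β hβ
      obtain ⟨h1, h2, h3, γ, hγ, hβγ⟩ := hrH β hβ
      have h4 := hV (r β) ⟨γ, hγ, lt_of_le_of_lt h2 hβγ⟩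
      by_contra hc
      exact absurd (h3 _ h4.1 (not_lt.1 hc)) (not_le.2 h4.2.1)
    have hexr : ∀ β ∈ H, ∃ γ ∈ G, r β < γ := by
      intro β hβ
      obtain ⟨h1, h2, h3, γ, hγ, hβγ⟩ := hrH β hβ
      exact ⟨γ, hγ, lt_of_le_of_lt h2 hβγ⟩
    let W : Ordinal.{0} → Set X := fun β =>
      U (f β) β ∩ (closure (⋃ α ∈ Iio (r β), U (f α) α))ᶜ ∩ V (r β) (d β)
    have hWo : ∀ β ∈ H, IsOpen (W β) ∧ d β ∈ W β := by
      intro β hβ
      have h4 := hV (r β) (hexr β hβ)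
      have h5 := h4.2.2.1 (d β) ⟨β, hnx β hβ, rfl⟩
      refine ⟨((hUo β hβ.1 _).1.inter isClosed_closure.isOpen_compl).inter h5.1,
        ⟨⟨(hUo β hβ.1 _).2, ?_⟩, h5.2⟩⟩
      intro hmem
      exact (hrH β hβ).1.2 ⟨β, (hrH β hβ).2.1, hβ.1, hmem⟩
    have hWd : ∀ β ∈ H, ∀ β' ∈ H, β < β' → Disjoint (W β) (W β') := by
      intro β hβ β' hβ' hlt
      by_cases hrr : r β = r β'
      · have h4 := hV (r β) (hexr β hβ)
        have h5 : d β ∈ d '' (Iio (nx (r β))) := ⟨β, hnx β hβ, rfl⟩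
        have h6 : d β' ∈ d '' (Iio (nx (r β))) := ⟨β', by rw [hrr]; exact hnx β' hβ', rfl⟩
        have h7 : d β ≠ d β' := fun h => hlt.ne (hd hβ.1 hβ'.1 h)
        have h8 := h4.2.2.2 h5 h6 h7
        refine h8.mono inter_subset_right ?_
        have : W β' ⊆ V (r β') (d β') := inter_subset_right
        rw [hrr]
        exact this
      · have h1 : r β < r β' := by
          have h2 : r β ≤ r β' := (hrH β' hβ').2.2.1 (r β) (hrH β hβ).1
            ((hrH β hβ).2.1.trans hlt.le)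
          exact lt_of_le_of_ne h2 hrr
        have h2 : β < r β' := by
          by_contra hc
          exact absurd ((hrH β hβ).2.2.1 (r β') (hrH β' hβ').1 (not_lt.1 hc)) (not_le.2 h1)
        rw [Set.disjoint_left]
        rintro z ⟨⟨hz1, _⟩, _⟩ ⟨⟨_, hz2⟩, _⟩
        exact hz2 (subset_closure (mem_biUnion (mem_Iio.2 h2) hz1))
    have hinv : ∀ x : X, ∃ β, (x ∈ d '' H) → (β ∈ H ∧ d β = x) := by
      intro x
      by_cases h : x ∈ d '' H
      · obtain ⟨β, hβ, hx⟩ := h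
        exact ⟨β, fun _ => ⟨hβ, hx⟩⟩
      · exact ⟨0, fun h' => absurd h' h⟩
    choose b hb using hinv
    refine ⟨fun x => W (b x), fun x hx => ?_, ?_⟩
    · obtain ⟨h1, h2⟩ := hb x hx
      have := hWo (b x) h1
      rw [h2] at this
      exact this
    · intro x hx x' hx' hne
      obtain ⟨h1, h2⟩ := hb x hx
      obtain ⟨h1', h2'⟩ := hb x' hx'
      have hbb : b x ≠ b x' := fun h => hne (by rw [← h2, ← h2', h])
      rcases lt_or_gt_of_ne hbb with h | h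
      · exact hWd _ h1 _ h1' h
      · exact (hWd _ h1' _ h1 h).symm

end Pool.Agent.Work.MP_f3e7a9_gt
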